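import Pool.Agent.helper35.FGN.Spec
import Pool.Agent.helper48.SLn.Dense
import Pool.Agent.helper48.SLn.Index

set_option autoImplicit false

namespace Pool.Agent.FGN

open Matrix Pool.Agent.H48SL Pool.Agent.UG

/-- the nilpotent part -/
def EXM_N {n : ℕ} (a b z : Fin n) : Matrix (Fin n) (Fin n) ℤ :=
  vecMulVec (Pi.single b 1) (Pi.single z 1) + vecMulVec (Pi.single a 1) (Pi.single b 1)

theorem EXM_N2 {n : ℕ} {a b z : Fin n} (hab : a ≠ b) (hbz : b ≠ z) (haz : a ≠ z) :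
    EXM_N a b z * EXM_N a b z = vecMulVec (Pi.single a 1) (Pi.single z 1) := by
  unfold EXM_N
  rw [Matrix.add_mul, Matrix.mul_add, Matrix.mul_add, vecMulVec_mul_vecMulVec, vecMulVec_mul_vecMulVec,
    vecMulVec_mul_vecMulVec, vecMulVec_mul_vecMulVec]
  simp [hab, hbz, haz]

theorem EXM_N3 {n : ℕ} {a b z : Fin n} (hbz : b ≠ z) (haz : a ≠ z) :
    vecMulVec (Pi.single a 1) (Pi.single z 1) * EXM_N a b z = 0 := by
  unfold EXM_N
  rw [Matrix.mul_add, vecMulVec_mul_vecMulVec, vecMulVec_mul_vecMulVec]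
  simp [hbz, haz]

/-- the element -/
noncomputable def EXM_u {n : ℕ} (a b z : Fin n) : SLZ n := xe b z 1 * xe a b 1

theorem EXM_coe {n : ℕ} {a b z : Fin n} (hab : a ≠ b) (hbz : b ≠ z) (haz : a ≠ z) :
    (EXM_u a b z : Matrix (Fin n) (Fin n) ℤ) = 1 + EXM_N a b z := by
  unfold EXM_u xe EXM_N
  rw [Matrix.SpecialLinearGroup.coe_mul, tv_coe (single_dot hbz 1), tv_coe (single_dot hab 1), Matrix.add_mul,
    Matrix.mul_add, Matrix.mul_add, vecMulVec_mul_vecMulVec]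
  simp [haz.symm]
  abel

theorem EXM_rank {n : ℕ} {a b z : Fin n} (hab : a ≠ b) (hbz : b ≠ z) (haz : a ≠ z) :
    (qg (EXM_u a b z) - 1).rank = 2 := by
  have h0 : qg (EXM_u a b z) - 1 = (vecMulVec (Pi.single b 1) (Pi.single z 1) + vecMulVec (Pi.single a 1) (Pi.single b 1) : MQ n) := by
    unfold qg
    rw [EXM_coe hab hbz haz, map_add, map_one, add_sub_cancel_left]
    unfold EXM_N
    ext i j
    simp [vecMulVec_apply, Pi.single_apply]
  rw [h0]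
  have h1 : (vecMulVec (Pi.single b 1) (Pi.single z 1) + vecMulVec (Pi.single a 1) (Pi.single b 1) : MQ n) =
      (Matrix.of ![(Pi.single b 1 : Fin n → ℚ), Pi.single a 1])ᵀ * Matrix.of ![(Pi.single z 1 : Fin n → ℚ), Pi.single b 1] := by
    ext i j
    simp [vecMulVec_apply, Matrix.mul_apply, Fin.sum_univ_two]
  apply le_antisymm
  · rw [h1]
    exact (Matrix.rank_mul_le_left _ _).trans (Matrix.rank_le_width _)
  · have h2 : Matrix.of ![(Pi.single b 1 : Fin n → ℚ), Pi.single a 1] *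
        (vecMulVec (Pi.single b 1) (Pi.single z 1) + vecMulVec (Pi.single a 1) (Pi.single b 1) : MQ n) *
        (Matrix.of ![(Pi.single z 1 : Fin n → ℚ), Pi.single b 1])ᵀ = 1 := by
      rw [h1]
      have h3 : Matrix.of ![(Pi.single b 1 : Fin n → ℚ), Pi.single a 1] * (Matrix.of ![(Pi.single b 1 : Fin n → ℚ), Pi.single a 1])ᵀ = 1 := by
        ext i j
        have e : ∀ v w : Fin n → ℚ, ∑ x, v x * w x = v ⬝ᵥ w := fun v w => rfl
        fin_cases i <;> fin_cases j <;> simp [Matrix.mul_apply, e, hab, hab.symm]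
      have h4 : Matrix.of ![(Pi.single z 1 : Fin n → ℚ), Pi.single b 1] * (Matrix.of ![(Pi.single z 1 : Fin n → ℚ), Pi.single b 1])ᵀ = 1 := by
        ext i j
        have e : ∀ v w : Fin n → ℚ, ∑ x, v x * w x = v ⬝ᵥ w := fun v w => rfl
        fin_cases i <;> fin_cases j <;> simp [Matrix.mul_apply, e, hbz, hbz.symm]
      rw [← Matrix.mul_assoc, h3, Matrix.one_mul, h4]
    have h5 : (1 : Matrix (Fin 2) (Fin 2) ℚ).rank = 2 := by
      rw [Matrix.rank_one]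
      rfl
    rw [← h5, ← h2]
    exact (Matrix.rank_mul_le_left _ _).trans (Matrix.rank_mul_le_right _ _)

theorem EXM_U3 {n : ℕ} {a b z : Fin n} (hab : a ≠ b) (hbz : b ≠ z) (haz : a ≠ z) : U3 (EXM_u a b z) := by
  refine ⟨?_, ?_, EXM_rank hab hbz haz⟩
  · rw [EXM_coe hab hbz haz, add_sub_cancel_left, pow_succ, pow_two, EXM_N2 hab hbz haz, EXM_N3 hbz haz]
  · rw [EXM_coe hab hbz haz, add_sub_cancel_left, pow_two, EXM_N2 hab hbz haz]
    intro h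
    have := congrFun (congrFun h a) z
    simp [vecMulVec_apply] at this

theorem EXM_vm {n : ℕ} {i j : Fin n} (h : i ≠ j) (c : ℤ) (x : Fin n → ℤ) :
    x ᵥ* ((xe i j c : SLZ n) : Matrix (Fin n) (Fin n) ℤ) = x + (c * x i) • Pi.single j 1 := by
  unfold xe
  rw [tv_vecMul (single_dot h c)]
  ext k
  by_cases hk : k = j
  · subst hk
    simp [mul_comm]
  · simp [hk]

theorem EXM_FixV {n : ℕ} {a b z : Fin n} (hab : a ≠ b) (hbz : b ≠ z) (haz : a ≠ z) (v : Fin n → ℤ) :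
    v ∈ FixV (EXM_u a b z) ↔ v b = 0 ∧ v z = 0 := by
  have e : ((EXM_u a b z : SLZ n) : Matrix (Fin n) (Fin n) ℤ) *ᵥ v = v + (v z • Pi.single b 1 + v b • Pi.single a 1) := by
    rw [EXM_coe hab hbz haz]
    unfold EXM_N
    rw [add_mulVec, add_mulVec, one_mulVec, vecMulVec_mulVec, vecMulVec_mulVec]
    simp
  show ((EXM_u a b z : SLZ n) : Matrix (Fin n) (Fin n) ℤ) *ᵥ v = v ↔ _
  rw [e]
  constructor
  · intro h
    have h1 : v z • Pi.single b 1 + v b • Pi.single a 1 = (0 : Fin n → ℤ) := by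
      have := congrArg (fun w => w - v) h
      simpa using this
    have h2 := congrFun h1 a
    have h3 := congrFun h1 b
    simp [hab, hab.symm] at h2 h3
    exact ⟨h2, h3⟩
  · rintro ⟨h1, h2⟩
    rw [h1, h2]
    simp

theorem EXM_FixR {n : ℕ} {a b z : Fin n} (hab : a ≠ b) (hbz : b ≠ z) (haz : a ≠ z) (v : Fin n → ℤ) :
    v ∈ FixR (EXM_u a b z) ↔ v b = 0 ∧ v a = 0 := by
  have e : v ᵥ* ((EXM_u a b z : SLZ n) : Matrix (Fin n) (Fin n) ℤ) = v + (v b • Pi.single z 1 + v a • Pi.single b 1) := by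
    rw [EXM_coe hab hbz haz]
    unfold EXM_N
    rw [vecMul_add, vecMul_add, vecMul_one, vecMul_vecMulVec, vecMul_vecMulVec]
    simp
  show v ᵥ* ((EXM_u a b z : SLZ n) : Matrix (Fin n) (Fin n) ℤ) = v ↔ _
  rw [e]
  constructor
  · intro h
    have h1 : v b • Pi.single z 1 + v a • Pi.single b 1 = (0 : Fin n → ℤ) := by
      have := congrArg (fun w => w - v) h
      simpa using this
    have h2 := congrFun h1 b
    have h3 := congrFun h1 z
    simp [hbz, hbz.symm] at h2 h3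
    exact ⟨h3, h2⟩
  · rintro ⟨h1, h2⟩
    rw [h1, h2]
    simp

theorem EXM_sq {n : ℕ} {a b z : Fin n} (hab : a ≠ b) (hbz : b ≠ z) (haz : a ≠ z) :
    ((EXM_u a b z : Matrix (Fin n) (Fin n) ℤ) - 1) ^ 2 = vecMulVec (Pi.single a 1) (Pi.single z 1) := by
  rw [EXM_coe hab hbz haz, add_sub_cancel_left, pow_two, EXM_N2 hab hbz haz]

theorem EXM_ImV {n : ℕ} {a b z : Fin n} (hab : a ≠ b) (hbz : b ≠ z) (haz : a ≠ z) (x : Fin n → ℤ) :
    x ∈ ImV (EXM_u a b z) ↔ ∀ l, l ≠ a → x l = 0 := by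
  unfold ImV
  rw [Set.mem_ofPred_eq, EXM_sq hab hbz haz]
  constructor
  · rintro ⟨k, hk, y, hy⟩ l hl
    have h := congrFun hy l
    rw [vecMulVec_mulVec] at h
    simp [hl] at h
    exact h.resolve_left hk
  · intro h
    refine ⟨1, one_ne_zero, Pi.single z (x a), ?_⟩
    rw [vecMulVec_mulVec, one_smul]
    ext l
    by_cases hl : l = a
    · subst hl
      simp
    · rw [h l hl]
      simp [hl]

theorem EXM_ImR {n : ℕ} {a b z : Fin n} (hab : a ≠ b) (hbz : b ≠ z) (haz : a ≠ z) (x : Fin n → ℤ) :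
    x ∈ ImR (EXM_u a b z) ↔ ∀ l, l ≠ z → x l = 0 := by
  unfold ImR
  rw [Set.mem_ofPred_eq, EXM_sq hab hbz haz]
  constructor
  · rintro ⟨k, hk, y, hy⟩ l hl
    have h := congrFun hy l
    rw [vecMul_vecMulVec] at h
    simp [hl] at h
    exact h.resolve_left hk
  · intro h
    refine ⟨1, one_ne_zero, Pi.single a (x z), ?_⟩
    rw [vecMul_vecMulVec, one_smul]
    ext l
    by_cases hl : l = z
    · subst hl
      simp
    · rw [h l hl]
      simp [hl]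

theorem EXM_mi {n : ℕ} (s : SLZ n) : (s : Matrix (Fin n) (Fin n) ℤ) * ((s⁻¹ : SLZ n) : Matrix (Fin n) (Fin n) ℤ) = 1 ∧
    ((s⁻¹ : SLZ n) : Matrix (Fin n) (Fin n) ℤ) * (s : Matrix (Fin n) (Fin n) ℤ) = 1 := by
  constructor
  · rw [← Matrix.SpecialLinearGroup.coe_mul, mul_inv_cancel, Matrix.SpecialLinearGroup.coe_one]
  · rw [← Matrix.SpecialLinearGroup.coe_mul, inv_mul_cancel, Matrix.SpecialLinearGroup.coe_one]

theorem EXM_cFV {n : ℕ} (u s : SLZ n) (v : Fin n → ℤ) :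
    v ∈ FixV (s * u * s⁻¹) ↔ ((s⁻¹ : SLZ n) : Matrix (Fin n) (Fin n) ℤ) *ᵥ v ∈ FixV u := by
  obtain ⟨h1, h2⟩ := EXM_mi s
  show ((s * u * s⁻¹ : SLZ n) : Matrix (Fin n) (Fin n) ℤ) *ᵥ v = v ↔
    (u : Matrix (Fin n) (Fin n) ℤ) *ᵥ (((s⁻¹ : SLZ n) : Matrix (Fin n) (Fin n) ℤ) *ᵥ v) = ((s⁻¹ : SLZ n) : Matrix (Fin n) (Fin n) ℤ) *ᵥ v
  rw [Matrix.SpecialLinearGroup.coe_mul, Matrix.SpecialLinearGroup.coe_mul, ← mulVec_mulVec, ← mulVec_mulVec]
  constructor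
  · intro h
    have := congrArg (fun w => ((s⁻¹ : SLZ n) : Matrix (Fin n) (Fin n) ℤ) *ᵥ w) h
    rw [mulVec_mulVec _ _ (s : Matrix (Fin n) (Fin n) ℤ), h2, one_mulVec] at this
    exact this
  · intro h
    rw [h, mulVec_mulVec, h1, one_mulVec]

theorem EXM_cFR {n : ℕ} (u s : SLZ n) (v : Fin n → ℤ) :
    v ∈ FixR (s * u * s⁻¹) ↔ v ᵥ* (s : Matrix (Fin n) (Fin n) ℤ) ∈ FixR u := by
  obtain ⟨h1, h2⟩ := EXM_mi s
  show v ᵥ* ((s * u * s⁻¹ : SLZ n) : Matrix (Fin n) (Fin n) ℤ) = v ↔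
    (v ᵥ* (s : Matrix (Fin n) (Fin n) ℤ)) ᵥ* (u : Matrix (Fin n) (Fin n) ℤ) = v ᵥ* (s : Matrix (Fin n) (Fin n) ℤ)
  rw [Matrix.SpecialLinearGroup.coe_mul, Matrix.SpecialLinearGroup.coe_mul, ← vecMul_vecMul, ← vecMul_vecMul]
  constructor
  · intro h
    have := congrArg (fun w => w ᵥ* (s : Matrix (Fin n) (Fin n) ℤ)) h
    rw [vecMul_vecMul _ ((s⁻¹ : SLZ n) : Matrix (Fin n) (Fin n) ℤ), h2, vecMul_one] at this
    exact this
  · intro h
    rw [h, vecMul_vecMul, h1, vecMul_one]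

theorem EXM_csq {n : ℕ} (u s : SLZ n) : (((s * u * s⁻¹ : SLZ n) : Matrix (Fin n) (Fin n) ℤ) - 1) ^ 2 =
    (s : Matrix (Fin n) (Fin n) ℤ) * ((u : Matrix (Fin n) (Fin n) ℤ) - 1) ^ 2 * ((s⁻¹ : SLZ n) : Matrix (Fin n) (Fin n) ℤ) := by
  obtain ⟨h1, h2⟩ := EXM_mi s
  have h : ((s * u * s⁻¹ : SLZ n) : Matrix (Fin n) (Fin n) ℤ) - 1 =
      (s : Matrix (Fin n) (Fin n) ℤ) * ((u : Matrix (Fin n) (Fin n) ℤ) - 1) * ((s⁻¹ : SLZ n) : Matrix (Fin n) (Fin n) ℤ) := by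
    rw [Matrix.mul_sub, Matrix.sub_mul, Matrix.mul_one, h1, Matrix.SpecialLinearGroup.coe_mul, Matrix.SpecialLinearGroup.coe_mul]
  rw [h, pow_two, pow_two]
  obtain ⟨S, hS⟩ : ∃ S, S = (s : Matrix (Fin n) (Fin n) ℤ) := ⟨_, rfl⟩
  obtain ⟨T, hT⟩ : ∃ T, T = ((s⁻¹ : SLZ n) : Matrix (Fin n) (Fin n) ℤ) := ⟨_, rfl⟩
  rw [← hS, ← hT] at h2 ⊢
  calc S * (↑u - 1) * T * (S * (↑u - 1) * T) = S * (↑u - 1) * (T * S) * ((↑u - 1) * T) := by
        simp only [Matrix.mul_assoc]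
    _ = S * ((↑u - 1) * (↑u - 1)) * T := by
        rw [h2]
        simp only [Matrix.mul_assoc, Matrix.mul_one]

theorem EXM_cIV {n : ℕ} (u s : SLZ n) (x : Fin n → ℤ) :
    x ∈ ImV (s * u * s⁻¹) ↔ ((s⁻¹ : SLZ n) : Matrix (Fin n) (Fin n) ℤ) *ᵥ x ∈ ImV u := by
  obtain ⟨h1, h2⟩ := EXM_mi s
  unfold ImV
  rw [Set.mem_ofPred_eq, Set.mem_ofPred_eq, EXM_csq]
  constructor
  · rintro ⟨k, hk, y, hy⟩
    refine ⟨k, hk, ((s⁻¹ : SLZ n) : Matrix (Fin n) (Fin n) ℤ) *ᵥ y, ?_⟩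
    rw [← mulVec_smul, hy, mulVec_mulVec, mulVec_mulVec, Matrix.mul_assoc, ← Matrix.mul_assoc, h2, Matrix.one_mul]
  · rintro ⟨k, hk, y, hy⟩
    refine ⟨k, hk, (s : Matrix (Fin n) (Fin n) ℤ) *ᵥ y, ?_⟩
    have : k • x = (s : Matrix (Fin n) (Fin n) ℤ) *ᵥ (k • (((s⁻¹ : SLZ n) : Matrix (Fin n) (Fin n) ℤ) *ᵥ x)) := by
      rw [mulVec_smul, mulVec_mulVec, h1, one_mulVec]
    rw [this, hy, mulVec_mulVec, mulVec_mulVec, Matrix.mul_assoc, Matrix.mul_assoc, h2, Matrix.mul_one]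

theorem EXM_cIR {n : ℕ} (u s : SLZ n) (x : Fin n → ℤ) :
    x ∈ ImR (s * u * s⁻¹) ↔ x ᵥ* (s : Matrix (Fin n) (Fin n) ℤ) ∈ ImR u := by
  obtain ⟨h1, h2⟩ := EXM_mi s
  unfold ImR
  rw [Set.mem_ofPred_eq, Set.mem_ofPred_eq, EXM_csq]
  constructor
  · rintro ⟨k, hk, y, hy⟩
    refine ⟨k, hk, y ᵥ* (s : Matrix (Fin n) (Fin n) ℤ), ?_⟩
    rw [← smul_vecMul, hy, vecMul_vecMul, vecMul_vecMul, Matrix.mul_assoc, Matrix.mul_assoc, h2, Matrix.mul_one]
  · rintro ⟨k, hk, y, hy⟩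
    refine ⟨k, hk, y ᵥ* ((s⁻¹ : SLZ n) : Matrix (Fin n) (Fin n) ℤ), ?_⟩
    have : k • x = (k • (x ᵥ* (s : Matrix (Fin n) (Fin n) ℤ))) ᵥ* ((s⁻¹ : SLZ n) : Matrix (Fin n) (Fin n) ℤ) := by
      rw [smul_vecMul, vecMul_vecMul, h1, vecMul_one]
    rw [this, hy, vecMul_vecMul, vecMul_vecMul, Matrix.mul_assoc, ← Matrix.mul_assoc, h2, Matrix.one_mul]

theorem EXM_L {n : ℕ} {a b z i : Fin n} (hab : a ≠ b) (hbz : b ≠ z) (haz : a ≠ z) (hib : i ≠ b) (c : ℤ) :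
    LeftEq (EXM_u a b z) (xe i b c * EXM_u a b z * (xe i b c)⁻¹) := by
  constructor
  · ext v
    rw [EXM_cFV, EXM_FixV hab hbz haz, EXM_FixV hab hbz haz, xe_inv hib, xe_mulVec hib]
    constructor
    · rintro ⟨h1, h2⟩
      simp [h1, h2]
    · rintro ⟨h1, h2⟩
      have h3 : v b = 0 := by
        simpa [hib, hib.symm] using h1
      rw [h3] at h2
      exact ⟨h3, by simpa using h2⟩
  · ext x
    rw [EXM_cIV, EXM_ImV hab hbz haz, EXM_ImV hab hbz haz, xe_inv hib, xe_mulVec hib]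
    constructor
    · intro h l hl
      rw [h b hab.symm]
      simp [h l hl]
    · intro h
      have h3 : x b = 0 := by
        have := h b hab.symm
        simpa [hib, hib.symm] using this
      rw [h3] at h
      intro l hl
      simpa using h l hl

theorem EXM_Rr {n : ℕ} {a b z j : Fin n} (hab : a ≠ b) (hbz : b ≠ z) (haz : a ≠ z) (hjb : b ≠ j) (c : ℤ) :
    RightEq (EXM_u a b z) (xe b j c * EXM_u a b z * (xe b j c)⁻¹) := by
  constructor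
  · ext v
    rw [EXM_cFR, EXM_FixR hab hbz haz, EXM_FixR hab hbz haz, EXM_vm hjb]
    constructor
    · rintro ⟨h1, h2⟩
      simp [h1, h2]
    · rintro ⟨h1, h2⟩
      have h3 : v b = 0 := by
        simpa [hjb, hjb.symm] using h1
      rw [h3] at h2
      exact ⟨h3, by simpa using h2⟩
  · ext x
    rw [EXM_cIR, EXM_ImR hab hbz haz, EXM_ImR hab hbz haz, EXM_vm hjb]
    constructor
    · intro h l hl
      rw [h b hbz]
      simp [h l hl]
    · intro h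
      have h3 : x b = 0 := by
        have := h b hbz
        simpa [hjb, hjb.symm] using this
      rw [h3] at h
      intro l hl
      simpa using h l hl

theorem EXM : EXM_stmt := by
  intro n hn
  obtain ⟨a, b, z, hab, hbz, haz⟩ : ∃ a b z : Fin n, a ≠ b ∧ b ≠ z ∧ a ≠ z :=
    ⟨⟨0, by omega⟩, ⟨1, by omega⟩, ⟨n - 1, by omega⟩, by simp [Fin.ext_iff], by simp [Fin.ext_iff]; omega,
      by simp [Fin.ext_iff]; omega⟩
  refine ⟨EXM_u a b z, {s | ∃ (i : Fin n) (c : ℤ), i ≠ b ∧ (s = xe i b c ∨ s = xe b i c)}, EXM_U3 hab hbz haz, ?_, ?_⟩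
  · rw [eq_top_iff, ← ES_univ, ES, Subgroup.closure_le]
    rintro g ⟨i, _, j, _, hij, c, rfl⟩
    have k1 : ∀ (i : Fin n) (c : ℤ), i ≠ b → xe i b c ∈ Subgroup.closure {s : SLZ n | ∃ (i : Fin n) (c : ℤ), i ≠ b ∧ (s = xe i b c ∨ s = xe b i c)} :=
      fun i c hi => Subgroup.subset_closure ⟨i, c, hi, Or.inl rfl⟩
    have k2 : ∀ (i : Fin n) (c : ℤ), i ≠ b → xe b i c ∈ Subgroup.closure {s : SLZ n | ∃ (i : Fin n) (c : ℤ), i ≠ b ∧ (s = xe i b c ∨ s = xe b i c)} :=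
      fun i c hi => Subgroup.subset_closure ⟨i, c, hi, Or.inr rfl⟩
    by_cases hi : i = b
    · subst hi
      exact k2 j c hij.symm
    · by_cases hj : j = b
      · subst hj
        exact k1 i c hi
      · have h4 := xe_commutator (i := i) (l := b) (j := j) hi (Ne.symm hj) hij c
        show xe i j c ∈ Subgroup.closure _
        rw [← h4]
        exact Subgroup.mul_mem _ (Subgroup.mul_mem _ (Subgroup.mul_mem _ (k1 i c hi) (k2 j 1 hj)) (Subgroup.inv_mem _ (k1 i c hi)))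
          (Subgroup.inv_mem _ (k2 j 1 hj))
  · rintro s ⟨i, c, hi, rfl | rfl⟩
    · exact Or.inl (EXM_L hab hbz haz hi c)
    · exact Or.inr (EXM_Rr hab hbz haz hi.symm c)

end Pool.Agent.FGN
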